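import Pool.Agent.X120.GS.Tor
import Pool.Agent.Y123.ST.Out

/-!
# Families of Nori motives with a degenerate fibre over `0`: the evaluation map at the fibres over `b^(-n)`

Let `M_i`, `1 ≤ i ≤ k`, be families of Nori motives (mixed motives are admitted) over punctured neighbourhoods of `0` in the line, with period
matrices `W_i(x) = Λ_i(-log x) P_i(x)` (rows: Betti, columns: de Rham). Here `Λ_i` is a matrix of polynomials with arbitrary complex
coefficients and `P_i(x)` is a matrix whose entries are polynomials of degree `≤ e` with arbitrary complex coefficients in G-functions `h_{i,l}(x)`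
over `ℚ` (which satisfy the conditions of Siegel and Galochkin, regular singular with rational exponents at `∞`). For variations of
mixed Hodge structures from geometry with unipotent local monodromy `exp(2πi N)` at `0` the Gauss-Manin system over `ℚ(x)` has a fundamental
matrix `exp(N log x) P(x)` with `P` over `ℚ⟦x⟧`, and so the period matrix is `Ω exp(N log x) P(x)` for a complex matrix `Ω`, which
is `Λ(-log x) P(x)` with `Λ(u) = Ω exp(-u N)`: **the fibre over `0` may be degenerate**. Let `Gal(P_i)` be the group of the matrices `g` such that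
`P_i` and `g P_i` satisfy the same polynomial relations over `ℂ(x)`, and let `U_i` be the group generated by the unipotent one-parameter
groups in `Gal(P_i)`. (If the Zariski closure `G` of the monodromy group of `exp(N log x) P(x)` is connected and perfect, for example symplectic, then
`Gal(P)` contains `G`: the differential Galois group over `ℂ(x, log x)` is `G` as well, so `G` preserves the relations of
`P = exp(-N log x) (exp(N log x) P)` over `ℂ(x, log x)`, and one can put `log x = 0` as `log x` is transcendental over the power series.)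
Let `b_i ≥ 2` be integers.

**Theorem.** Given `D` and `d`, for all but `C T^(k-1) log T` of the tuples `(t_1, …, t_k)` in `[1, T]^k`, in particular for all but `C log T` of the
first `T` fibres if `k = 1`, where `C` depends only on `D`, `d`, the `h_i`, the `b_i`, `k`, the ranks and the degrees of `P_i` and `Λ_i`, the
following holds for the period matrices `W_i` of the fibres over `b_i^(-t_i)`, for **all number fields** `K` of degree at most `D` at once, and all
polynomials `F` over `K` of degree at most `d` in the entries of the `W_i` and in `2πi`.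

1. If `F(W, 2πi) = 0` then `F(Λ g P, 2πi) = 0` for all `g ∈ ∏ U_i`.
2. Let `X` be a closed subset over `K` of `∏ GL(n_i) × GL_1` which contains `(W, 2πi)`, with fibre over `2πi` the orbit `Λ (∏ U_i) P`, and which is
   stable under the weights `(Y, z) ↦ (S t^w S⁻¹ Y, t^2 z)`. Then `F(W, 2πi) = 0` if and only if `F = 0` on `X`.

For the fibre `M` of the direct sum of the `M_i` and of `ℚ(-1)`, let `X(M)` be the torsor in the problem, the spectrum of the algebra of formal periods: it is a
closed subset of `∏ GL(n_i) × GL_1` (isomorphisms from de Rham to Betti), stable under the weight cocharacter of `G(M)`, and its fibre over `2πi` is an orbit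
of the kernel of `G(M) → GL_1`. This kernel contains (for Hodge generic fibres) the monodromy group, and we say that the monodromy is big if the two are equal. In
this case, by 2 with `X = X(M)`, the evaluation map from the formal periods to `ℂ` is injective on the polynomials of degree at most `d` in the
matrix coefficients of `M` with coefficients in all number fields of degree at most `D`; compare (iii) in the problem. Nothing
is assumed about the group: it can be symplectic, orthogonal, special linear, exceptional or not reductive (mixed motives, for example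
`1`-motives over a family of abelian varieties), only that it is generated by unipotent one-parameter groups; for pure motives this is a theorem of Deligne, as the
monodromy group is semisimple. Moreover there are `M(T) → ∞` and `ε(T) → 0` such that for all but `ε(T) T^k` tuples in `[1, T]^k` this is true for
degrees and number fields of degree up to `M(T)`.

The previous results of this kind are about rational or algebraic numbers ordered by the height, with at least `H^(o(1))` exceptions up to height `H`; as there are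
only `O(log H)` numbers `b^(-t)` of height at most `H` they say nothing about these. In MP_cbf1af_ag.GeometricSequencesAllFields the fibre over `0` is good
(`Λ = 1`) and the torsors are those of the classical groups; the families in the literature (`y^2 = g(x) (x - t)` near `t = ∞`, mirror families near the
points of maximal unipotent monodromy) have degenerate fibres there.

Proof. The relation `F(Λ(t log b) P(b^(-t)), 2πi) = 0` is a relation for `P(b^(-t))` with coefficients in the `ℚ`-vector space which is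
spanned by products of the coefficients of `Λ` multiplied by powers of `log b` and of `2πi`, of dimension bounded independently of `t`. By the counting theorem on geometric sequences
(`Pool.Agent.X120.GS`) it is a specialisation of a functional relation, so it is stable under `Gal(P)`. (All fields) For `F` over `K` consider the
relations over `ℚ` of degree `≤ d D^D` on a curve in the group. (Torsors) By automorphisms of `ℂ` over `K` the relation holds on the fibres of `X` over all transcendental
`z`, and then on all fibres by the weights and continuity.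
-/

set_option autoImplicit false

open PowerSeries Filter
open scoped Matrix

namespace Pool.Agent.Results.MP_ae0f86_nt.GeometricSequencesOfNoriMotives

/-- an integer polynomial as a power series with rational coefficients -/
noncomputable def toQ (P : Polynomial ℤ) : PowerSeries ℚ := ((P.map (Int.castRingHom ℚ) : Polynomial ℚ) : PowerSeries ℚ)

/-- the power series `P(u^e)` -/
noncomputable def atPow (e : ℕ) (P : Polynomial ℤ) : PowerSeries ℂ :=
  ((Polynomial.expand ℂ e (P.map (Int.castRingHom ℂ)) : Polynomial ℂ) : PowerSeries ℂ)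

/-- the matrices `G_s` over `ℤ[x]` with `T^s y^(s) = G_s y` for all solutions `y` of `T y' = A y` -/
noncomputable def iter {r : ℕ} (T : Polynomial ℤ) (A : Fin r → Fin r → Polynomial ℤ) : ℕ → Fin r → Fin r → Polynomial ℤ
  | 0 => fun i j => if i = j then 1 else 0
  | s + 1 => fun i j => T * Polynomial.derivative (iter T A s i j) + ∑ l, iter T A s i l * A l j -
      (s : Polynomial ℤ) * (Polynomial.derivative T * iter T A s i j)

/-- The system `T y' = A y` has a fundamental matrix of solutions of the form `u^(-M) ∑_n Φ_n(u) (log u)^n` with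
`u^e = x` and convergent power series `Φ_n`: the point `0` is regular or a regular singularity with rational
exponents. -/
def QuasiUnipotent {r : ℕ} (T : Polynomial ℤ) (A : Fin r → Fin r → Polynomial ℤ) : Prop :=
  ∃ (e M : ℕ) (K : ℝ) (Φ : Matrix (Fin r) (Fin r) (Polynomial (PowerSeries ℂ))), 1 ≤ e ∧ Φ.det ≠ 0 ∧
    (∀ i j n m, ‖coeff m ((Φ i j).coeff n)‖ ≤ K ^ (m + 1)) ∧
    ∀ i j n, atPow e T * (X * PowerSeries.derivative ℂ ((Φ i j).coeff n) +
        ((n : PowerSeries ℂ) + 1) * (Φ i j).coeff (n + 1) - (M : PowerSeries ℂ) * (Φ i j).coeff n) =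
      (e : PowerSeries ℂ) * X ^ e * ∑ l, atPow e (A i l) * (Φ l j).coeff n

/-- `h_1, ..., h_r` are G-functions with rational coefficients which solve the differential system `T y' = A y`, with
the conditions of Siegel and Galochkin, and `∞` is a regular point or a regular singularity with rational exponents of the
system: for `z = 1 / x` the system is `z² T^(z) dy/dz = - A^(z) y` where `T^(z) = z^d T(1/z)` and `A^(z) = z^d A(1/z)` are
the reflected polynomials. -/
structure GFamily {r : ℕ} (T : Polynomial ℤ) (A : Fin r → Fin r → Polynomial ℤ) (h : Fin r → PowerSeries ℚ) : Prop where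
  /-- the denominator is not zero -/
  T_ne : T ≠ 0
  /-- the differential equations -/
  ode : ∀ i, toQ T * PowerSeries.derivative ℚ (h i) = ∑ j, toQ (A i j) * h j
  /-- the coefficients have geometric growth -/
  size : ∃ C : ℝ, ∀ i m, |((coeff m (h i) : ℚ) : ℝ)| ≤ C ^ (m + 1)
  /-- the common denominators of the coefficients have geometric growth -/
  den : ∃ C : ℝ, ∀ m : ℕ, ∃ d : ℕ, 0 < d ∧ (d : ℝ) ≤ C ^ (m + 1) ∧ ∀ i, ∀ j ≤ m, ∃ a : ℤ, (d : ℚ) * coeff j (h i) = a
  /-- Galochkin's condition: the common denominators of the matrices `G_s / s!` have geometric growth -/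
  galochkin : ∃ C : ℝ, ∀ m : ℕ, ∃ d : ℕ, 0 < d ∧ (d : ℝ) ≤ C ^ (m + 1) ∧ ∀ s ≤ m, ∀ i j,
    ∃ H : Polynomial ℤ, (d : Polynomial ℤ) * iter T A s i j = (s.factorial : Polynomial ℤ) * H
  /-- the local exponents at `∞` are rational and the singularity is regular -/
  regular_infty : ∃ d : ℕ, T.natDegree ≤ d ∧ (∀ i j, (A i j).natDegree ≤ d) ∧
    QuasiUnipotent (Polynomial.X ^ 2 * T.reflect d) (fun i j => - (A i j).reflect d)

theorem iter_eq {r : ℕ} (T : Polynomial ℤ) (A : Fin r → Fin r → Polynomial ℤ) (s : ℕ) :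
    iter T A s = Pool.Agent.Y120.GH.itm T A s := by
  induction s with
  | zero => rfl
  | succ s ih =>
    funext i j
    rw [iter, Pool.Agent.Y120.GH.itm, ih]

theorem qu_eq {r : ℕ} {T : Polynomial ℤ} {A : Fin r → Fin r → Polynomial ℤ} (h : QuasiUnipotent T A) :
    Pool.Agent.Y120.GH.QU0 T A := by
  obtain ⟨e, M, K, Φ, he, hdet, hc, heq⟩ := h
  have he0 : e ≠ 0 := by omega
  refine ⟨e, he0, M, K, Φ, hc, fun i j n => ?_, hdet⟩
  have h1 := heq i j n
  simp only [atPow] at h1
  rw [Pool.Agent.Y120.GH.expand_poly he0]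
  simp only [Pool.Agent.Y120.GH.expand_poly he0]
  exact h1

theorem fam {r : ℕ} {T : Polynomial ℤ} {A : Fin r → Fin r → Polynomial ℤ} {h : Fin r → PowerSeries ℚ}
    (hG : GFamily T A h) {b : ℕ} (hb : 2 ≤ b) (δ : ℕ) : Pool.Agent.X120.GS.FamG δ h b := by
  obtain ⟨d, hTd, hAd, hqu⟩ := hG.regular_infty
  obtain ⟨B, a, M, h1, h2, h3⟩ := Pool.Agent.X120.GS.family_mainS hG.T_ne hG.ode hG.size hG.den (by
    obtain ⟨C, hC⟩ := hG.galochkin
    refine ⟨C, fun m => ?_⟩
    obtain ⟨d, h1, h2, h3⟩ := hC m
    refine ⟨d, h1, h2, fun s hs i' j' => ?_⟩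
    rw [← iter_eq]
    exact h3 s hs i' j') hTd hAd (qu_eq hqu) δ
  exact ⟨hG.size, B, a, M, h1, h2, h3 b hb⟩

section family
variable {r n : ℕ}

/-- The period matrix at `x = 1 / s`: the entries are the polynomials `P a b` in the `h_l(1 / s)`. -/
noncomputable def perMat (h : Fin r → PowerSeries ℚ) (P : Fin n → Fin n → MvPolynomial (Fin r) ℂ) (s : ℝ) :
    Matrix (Fin n) (Fin n) ℂ :=
  Matrix.of fun a b => MvPolynomial.aeval
    (fun l => ((∑' m : ℕ, ((coeff m (h l) : ℚ) : ℝ) * (1 / s) ^ m : ℝ) : ℂ)) (P a b)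

/-- the polynomials in more variables -/
noncomputable def more (P : Fin n → Fin n → MvPolynomial (Fin r) ℂ) : Fin n → Fin n → MvPolynomial (Option (Fin r)) ℂ :=
  fun a b => MvPolynomial.rename some (P a b)

theorem perMat_eq (h : Fin r → PowerSeries ℚ) (P : Fin n → Fin n → MvPolynomial (Fin r) ℂ) (s : ℝ) :
    perMat h P s = Pool.Agent.Y120.R.pM h (more P) s := by
  ext a b
  show MvPolynomial.aeval _ (P a b) = MvPolynomial.aeval _ (MvPolynomial.rename some (P a b))
  rw [MvPolynomial.aeval_rename]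
  rfl

/-- the value at `x = 1 / s` and at the matrix `Z` of a polynomial in the entries of a matrix over `ℂ[x]` -/
noncomputable def relAt (R : MvPolynomial (Fin n × Fin n) (Polynomial ℂ)) (s : ℝ) (Z : Matrix (Fin n) (Fin n) ℂ) : ℂ :=
  MvPolynomial.eval₂ (Polynomial.evalRingHom (1 / (s : ℂ))) (fun v => Z v.1 v.2) R

/-- `g P(x)` satisfies all polynomial relations over `ℂ[x]` which `P(x)` satisfies. -/
def Preserves (h : Fin r → PowerSeries ℚ) (P : Fin n → Fin n → MvPolynomial (Fin r) ℂ)
    (g : Matrix (Fin n) (Fin n) ℂ) : Prop :=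
  ∀ R : MvPolynomial (Fin n × Fin n) (Polynomial ℂ), (∀ᶠ s : ℝ in Filter.atTop, relAt R s (perMat h P s) = 0) →
    ∀ᶠ s : ℝ in Filter.atTop, relAt R s (g * perMat h P s) = 0

theorem preserves_iff (h : Fin r → PowerSeries ℚ) (P : Fin n → Fin n → MvPolynomial (Fin r) ℂ)
    (g : Matrix (Fin n) (Fin n) ℂ) : Preserves h P g ↔ Pool.Agent.Y123.GN.Prs h (more P) g := by
  unfold Preserves Pool.Agent.Y123.GN.Prs
  simp only [perMat_eq]
  exact Iff.rfl

/-- The group of the matrices `g` such that `g` and `g⁻¹` preserve the relations. If `P` is a fundamental matrix of a linear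
differential system over `ℂ(x)` this is its differential Galois group. -/
noncomputable def Gal (h : Fin r → PowerSeries ℚ) (P : Fin n → Fin n → MvPolynomial (Fin r) ℂ) :
    Subgroup (Matrix.GeneralLinearGroup (Fin n) ℂ) where
  carrier := {g | Preserves h P (g : Matrix (Fin n) (Fin n) ℂ) ∧
    Preserves h P ((g⁻¹ : Matrix.GeneralLinearGroup (Fin n) ℂ) : Matrix (Fin n) (Fin n) ℂ)}
  mul_mem' := fun hg hg' => by
    simp only [Set.mem_ofPred_eq, preserves_iff] at hg hg' ⊢
    exact (Pool.Agent.Y123.GN.Gs h (more P)).mul_mem' hg hg'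
  one_mem' := by
    simp only [Set.mem_ofPred_eq, preserves_iff]
    exact (Pool.Agent.Y123.GN.Gs h (more P)).one_mem'
  inv_mem' := fun hg => by
    simp only [Set.mem_ofPred_eq, preserves_iff] at hg ⊢
    exact (Pool.Agent.Y123.GN.Gs h (more P)).inv_mem' hg

theorem gal_eq (h : Fin r → PowerSeries ℚ) (P : Fin n → Fin n → MvPolynomial (Fin r) ℂ) :
    Gal h P = Pool.Agent.Y123.GN.Gs h (more P) := by
  ext g
  show Preserves h P _ ∧ Preserves h P _ ↔ Pool.Agent.Y123.GN.Prs h (more P) _ ∧ Pool.Agent.Y123.GN.Prs h (more P) _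
  rw [preserves_iff, preserves_iff]

/-- the nilpotent matrices `N` with `exp (t N) ∈ H` for all `t` -/
def nilpotents (H : Subgroup (Matrix.GeneralLinearGroup (Fin n) ℂ)) : Set (Matrix (Fin n) (Fin n) ℂ) :=
  {N | IsNilpotent N ∧ ∀ t : ℂ, ∃ u ∈ H, (u : Matrix (Fin n) (Fin n) ℂ) = IsNilpotent.exp (t • N)}

/-- the subgroup generated by all unipotent one-parameter groups in `H` -/
def unipotents (H : Subgroup (Matrix.GeneralLinearGroup (Fin n) ℂ)) : Subgroup (Matrix.GeneralLinearGroup (Fin n) ℂ) :=
  Subgroup.closure {u | ∃ N ∈ nilpotents H, ∃ t : ℂ, (u : Matrix (Fin n) (Fin n) ℂ) = IsNilpotent.exp (t • N)}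

end family

section
variable {k m : ℕ} {n : Fin k → ℕ} {ρ : Fin k → ℕ}

/-- the entries of the matrices `X_i` and the constants `ξ_j` -/
def entries (X : ∀ i, Matrix (Fin (n i)) (Fin (n i)) ℂ) (ξ : Fin m → ℂ) : (Σ i, Fin (n i) × Fin (n i)) ⊕ Fin m → ℂ :=
  Sum.elim (fun v => X v.1 v.2.1 v.2.2) ξ

/-- the closed subset of `∏ GL(n_i) × GL_1` which is defined by the polynomials in `I` over `K` -/
def closedSet {K : Subfield ℂ} (I : Set (MvPolynomial ((Σ i, Fin (n i) × Fin (n i)) ⊕ Fin 1) K)) :
    Set ((∀ i, Matrix (Fin (n i)) (Fin (n i)) ℂ) × ℂ) :=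
  {y | y.2 ≠ 0 ∧ (∀ i, IsUnit (y.1 i)) ∧ ∀ R ∈ I, MvPolynomial.aeval (entries y.1 fun _ => y.2) R = 0}

/-- The set is stable under the weights `(Y, z) ↦ (S t^w S⁻¹ Y, t^2 z)`, for some integral weights `w` and invertible matrices `S`
(a splitting of the weight filtrations). -/
def WeightStable (X : Set ((∀ i, Matrix (Fin (n i)) (Fin (n i)) ℂ) × ℂ)) : Prop :=
  ∃ (S : ∀ i, Matrix (Fin (n i)) (Fin (n i)) ℂ) (w : ∀ i, Fin (n i) → ℤ), (∀ i, IsUnit (S i)) ∧
    ∀ Y z, (Y, z) ∈ X → ∀ t : ℂ, t ≠ 0 →
      ((fun i => S i * Matrix.diagonal (fun a => t ^ w i a) * (S i)⁻¹ * Y i), t ^ 2 * z) ∈ X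

/-- The conclusion for one tuple: `L i = Λ_i(t_i log b_i)`, `Z i = P_i(b_i^(-t_i))`, and `L i * Z i` is the period matrix. -/
def Good (D d : ℕ) (h : ∀ i, Fin (ρ i) → PowerSeries ℚ)
    (P : ∀ i, Fin (n i) → Fin (n i) → MvPolynomial (Fin (ρ i)) ℂ) (L Z : ∀ i, Matrix (Fin (n i)) (Fin (n i)) ℂ) : Prop :=
  ∀ K : Subfield ℂ, FiniteDimensional ℚ K → Module.finrank ℚ K ≤ D →
  -- 1: all relations are stable under the monodromy group
  (∀ F : MvPolynomial ((Σ i, Fin (n i) × Fin (n i)) ⊕ Fin 1) K, F.totalDegree ≤ d →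
    MvPolynomial.aeval (entries (fun i => L i * Z i) fun _ => (2 * Real.pi * Complex.I : ℂ)) F = 0 →
    ∀ g : ∀ i, Matrix.GeneralLinearGroup (Fin (n i)) ℂ, (∀ i, g i ∈ unipotents (Gal (h i) (P i))) →
      MvPolynomial.aeval (entries (fun i => L i * ((g i : Matrix (Fin (n i)) (Fin (n i)) ℂ) * Z i))
        fun _ => (2 * Real.pi * Complex.I : ℂ)) F = 0) ∧
  -- 2: big monodromy: all relations are those on the torsor
  (∀ I : Set (MvPolynomial ((Σ i, Fin (n i) × Fin (n i)) ⊕ Fin 1) K),
    ((fun i => L i * Z i), (2 * Real.pi * Complex.I : ℂ)) ∈ closedSet I →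
    (∀ Y, (Y, (2 * Real.pi * Complex.I : ℂ)) ∈ closedSet I →
      ∃ g : ∀ i, Matrix.GeneralLinearGroup (Fin (n i)) ℂ, (∀ i, g i ∈ unipotents (Gal (h i) (P i))) ∧
        ∀ i, Y i = L i * ((g i : Matrix (Fin (n i)) (Fin (n i)) ℂ) * Z i)) →
    WeightStable (closedSet I) →
    ∀ F : MvPolynomial ((Σ i, Fin (n i) × Fin (n i)) ⊕ Fin 1) K, F.totalDegree ≤ d →
      (MvPolynomial.aeval (entries (fun i => L i * Z i) fun _ => (2 * Real.pi * Complex.I : ℂ)) F = 0 ↔
        ∀ y ∈ closedSet I, MvPolynomial.aeval (entries y.1 fun _ => y.2) F = 0))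

theorem good_of {D d : ℕ} {h : ∀ i, Fin (ρ i) → PowerSeries ℚ}
    {P : ∀ i, Fin (n i) → Fin (n i) → MvPolynomial (Fin (ρ i)) ℂ} {L : ∀ i, Matrix (Fin (n i)) (Fin (n i)) ℂ} {t : Fin k → ℕ}
    (hg : Pool.Agent.X120.GS.GoodL D d (Matrix.diagonal fun _ : Fin 1 => Pool.Agent.Y123.GN.tpi) L h
      (Pool.Agent.X120.GS.soM P) t) :
    Good D d h P L fun i => perMat (h i) (P i) (t i : ℝ) := by
  intro K hKf hKD
  have h1 := hg K hKf hKD
  have hGal : ∀ i, Gal (h i) (P i) = Pool.Agent.Y123.GN.Gs (h i) (Pool.Agent.X120.GS.soM P i) := fun i => gal_eq _ _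
  have hZ : (fun i => perMat (h i) (P i) (t i : ℝ)) =
      fun i => Pool.Agent.Y120.R.pM (h i) (Pool.Agent.X120.GS.soM P i) (t i : ℝ) := funext fun i => perMat_eq _ _ _
  rw [hZ]
  simp only [hGal]
  have hKalg : ∀ x ∈ K, IsAlgebraic ℚ x := by
    intro x hx
    have : NumberField K := { to_charZero := inferInstance, to_finiteDimensional := hKf }
    have h6 : IsAlgebraic ℚ (⟨x, hx⟩ : K) := Algebra.IsAlgebraic.isAlgebraic _
    exact h6.algebraMap (A := ℂ)
  refine ⟨?_, ?_⟩
  · intro F hF h0 g hgm
    exact Pool.Agent.X120.GS.rel_valsL (h1 g hgm) hF h0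
  · intro I hmem hfib hwt F hF
    refine ⟨fun h0 => ?_, fun h0 => ?_⟩
    swap
    · have h6 := h0 _ hmem
      exact h6
    obtain ⟨S, w, hS, hst⟩ := hwt
    refine Pool.Agent.X120.GS.rel_tor (I := I) (S := S) (w := w) hKalg hS hst fun Y hY => ?_
    obtain ⟨g, hgm, hgY⟩ := hfib Y hY
    have h7 := Pool.Agent.X120.GS.rel_valsL (h1 g hgm) hF h0
    have h8 : (fun i => L i * ((g i : Matrix (Fin (n i)) (Fin (n i)) ℂ) *
        Pool.Agent.Y120.R.pM (h i) (Pool.Agent.X120.GS.soM P i) (t i : ℝ))) = Y := funext fun i => (hgY i).symm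
    rw [h8] at h7
    exact h7

end

/-- **The theorem.** The period matrix of the `i`-th family at `x = 1 / s` is `Λ_i(log s) P_i(x)`; `b i ≥ 2` and `x i = b i ^ (- t i)`. -/
theorem result (k e e' : ℕ) (ρ n : Fin k → ℕ) (T : Fin k → Polynomial ℤ)
    (A : ∀ i, Fin (ρ i) → Fin (ρ i) → Polynomial ℤ) (h : ∀ i, Fin (ρ i) → PowerSeries ℚ)
    (hG : ∀ i, GFamily (T i) (A i) (h i)) (b : Fin k → ℕ) (hb : ∀ i, 2 ≤ b i) :
    -- number fields of degree at most `D`, relations of degree at most `d`
    (∀ D d : ℕ, ∃ C : ℝ, 0 ≤ C ∧ ∀ P : ∀ i, Fin (n i) → Fin (n i) → MvPolynomial (Fin (ρ i)) ℂ,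
      (∀ i a b, (P i a b).totalDegree ≤ e) → ∀ Λ : ∀ i, Matrix (Fin (n i)) (Fin (n i)) (Polynomial ℂ),
      (∀ i a b, (Λ i a b).natDegree ≤ e') → ∀ N : ℕ, 2 ≤ N →
      (({t : Fin k → ℕ | (∀ i, 1 ≤ t i ∧ t i ≤ N) ∧
        ¬ Good D d h P (fun i => (Λ i).map (Polynomial.eval ((t i : ℂ) * (Real.log (b i) : ℂ))))
          fun i => perMat (h i) (P i) ((b i : ℝ) ^ t i)}.ncard : ℕ) : ℝ) * N ≤
        C * (N : ℝ) ^ k * Real.log N) ∧
    -- all degrees at most `M N`, which tends to infinity
    (∃ (M : ℕ → ℕ) (ε : ℕ → ℝ), Tendsto M atTop atTop ∧ Tendsto ε atTop (nhds 0) ∧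
      ∀ P : ∀ i, Fin (n i) → Fin (n i) → MvPolynomial (Fin (ρ i)) ℂ,
      (∀ i a b, (P i a b).totalDegree ≤ e) → ∀ Λ : ∀ i, Matrix (Fin (n i)) (Fin (n i)) (Polynomial ℂ),
      (∀ i a b, (Λ i a b).natDegree ≤ e') → ∀ N : ℕ, 2 ≤ N →
      (({t : Fin k → ℕ | (∀ i, 1 ≤ t i ∧ t i ≤ N) ∧
        ¬ Good (M N) (M N) h P (fun i => (Λ i).map (Polynomial.eval ((t i : ℂ) * (Real.log (b i) : ℂ))))
          fun i => perMat (h i) (P i) ((b i : ℝ) ^ t i)}.ncard : ℕ) : ℝ) ≤ ε N * (N : ℝ) ^ k) := by
  classical
  have hmain : ∀ D d : ℕ, ∃ C : ℝ, 0 ≤ C ∧ ∀ P : ∀ i, Fin (n i) → Fin (n i) → MvPolynomial (Fin (ρ i)) ℂ,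
      (∀ i a b, (P i a b).totalDegree ≤ e) → ∀ Λ : ∀ i, Matrix (Fin (n i)) (Fin (n i)) (Polynomial ℂ),
      (∀ i a b, (Λ i a b).natDegree ≤ e') → ∀ N : ℕ, 2 ≤ N →
      (({t : Fin k → ℕ | (∀ i, 1 ≤ t i ∧ t i ≤ N) ∧
        ¬ Good D d h P (fun i => (Λ i).map (Polynomial.eval ((t i : ℂ) * (Real.log (b i) : ℂ))))
          fun i => perMat (h i) (P i) ((b i : ℝ) ^ t i)}.ncard : ℕ) : ℝ) * N ≤
        C * (N : ℝ) ^ k * Real.log N := by
    intro D d
    obtain ⟨C, hC, hmain⟩ := Pool.Agent.X120.GS.rel_degS k D d e e' 1 ρ n h hb fun i δ => fam (hG i) (hb i) δ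
    refine ⟨C, hC, ?_⟩
    intro P hP Λ hΛ N hN
    set E := {t : Fin k → ℕ | (∀ i, 1 ≤ t i ∧ t i ≤ N) ∧
        ¬ Good D d h P (fun i => (Λ i).map (Polynomial.eval ((t i : ℂ) * (Real.log (b i) : ℂ))))
          fun i => perMat (h i) (P i) ((b i : ℝ) ^ t i)} with hE
    have hfin : E.Finite := by
      refine (Set.finite_Iic (fun _ : Fin k => N)).subset ?_
      intro t ht i
      exact (ht.1 i).2
    rw [Set.ncard_eq_toFinset_card E hfin]
    refine hmain P hP Λ hΛ (Matrix.diagonal fun _ : Fin 1 => Pool.Agent.Y123.GN.tpi) N hN hfin.toFinset fun t ht => ?_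
    have ht' := hfin.mem_toFinset.1 ht
    refine ⟨ht'.1, fun hgood => ht'.2 ?_⟩
    have h3 := good_of hgood
    have h4 : (fun i => perMat (h i) (P i) ((Pool.Agent.X120.GS.tp b t i : ℕ) : ℝ)) =
        fun i => perMat (h i) (P i) ((b i : ℝ) ^ t i) := by
      funext i
      have h5 : ((Pool.Agent.X120.GS.tp b t i : ℕ) : ℝ) = (b i : ℝ) ^ t i := by
        unfold Pool.Agent.X120.GS.tp
        push_cast
        rfl
      rw [h5]
    rw [h4] at h3
    exact h3
  refine ⟨hmain, ?_⟩
  choose C hC hcount using hmain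
  obtain ⟨D, hD, hδ⟩ := Pool.Agent.Y123.GN.diag_seq (fun D N => C D D * (Real.log N / N)) (by
      intro D
      have h1 : Tendsto (fun N : ℕ => Real.log N / N) atTop (nhds 0) :=
        (Real.isLittleO_log_id_atTop.tendsto_div_nhds_zero).comp tendsto_natCast_atTop_atTop
      have h5 := h1.const_mul (C D D)
      rw [mul_zero] at h5
      exact h5)
  refine ⟨D, _, hD, hδ, ?_⟩
  intro P hP Λ hΛ N hN
  have h1 := hcount (D N) (D N) P hP Λ hΛ N hN
  have hN0 : (0 : ℝ) < N := by
    have : 0 < N := by omega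
    exact_mod_cast this
  rw [← le_div_iff₀ hN0] at h1
  refine h1.trans (le_of_eq ?_)
  ring

end Pool.Agent.Results.MP_ae0f86_nt.GeometricSequencesOfNoriMotives
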