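import Pool.Agent.X306.CV.Main

/-!
# The de Rham-Betti torsor of the path torsors of a curve of genus `g ≥ 1`

Let `X` be a hyperelliptic curve `y² = f(x)` of genus `g ≥ 2` with `f` of odd degree, or an elliptic curve (`g = 1`), over
the field `ℚ̄` of algebraic numbers, let `∞` be its point at infinity and `U = X ∖ {∞}`. The motivic fundamental group of `U`
is a free prounipotent group in a motivic sense: its fundamental groupoid gives, for every `n`, an ind-object of the
category of Nori motives which has the iterated integrals of length at most `n` on `U` as its periods. We take as base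
point `a` a (tangential) base point at `∞`, or a Weierstrass point. Let `b_r ∈ U(ℚ̄)` (`r ∈ R`) be further points. The
motive `M_a` is the truncated group algebra `ℚ[π₁(U, a)] / I^(n+1)` and `M_b` is the path torsor `ℚ[π₁(U; a, b)]`, modulo
`I^(n+1)`.

The period matrix of `M_a ⊕ ⨁_r M_{b_r}` has the following shape (rows: Betti side, columns: de Rham side). Let
`ω_1, …, ω_2g` be the basis of `H^1_dR(X)`, given by algebraic differential forms on `U`, which corresponds to the
differentials `d z_k` and `d (∂_k log θ₀)` of the Jacobian `A` of `X`.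

* The indices `b : B` are the words of length `d b ≤ n` in `2g` letters, `o` is the empty word, and `N_i` (`i : Fin (2g)`)
  is the operation `w ↦ w i` on the de Rham side: the universal unipotent connection on `U` is `d + ∑ N_i ω_i`.
* On the Betti side there is the basis of the words in generators `y_j` of the Lie algebra of the fundamental group, with
  class `lam j` in `H_1(X)`, and `N'_j` is the operation `w ↦ w j`. The hyperelliptic involution acts on `M_a` (for the
  tangential base point: on all subquotients `I^k / I^(k+2)`), and on `H_1(X)` by `-1`. We choose the `y_j` in the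
  eigenspace of `-1` (modulo terms of length `3`). Then the entries `C_{b b'}` of the period matrix with `d b' = d b + 1`
  vanish. There is no hypothesis for the entries of higher degree (for example, regularized iterated integrals along loops).
* `N'_j C` and `∑ P_{j i} C N_i` have the same entries in degree at most one, where `P` is the period matrix of `X`, and the
  Lie algebras generated by the `N_i` and by the `N'_j` correspond to each other. So if `𝔫` is the Lie algebra generated by
  the `N_i` (`lieAlgebra`), `C 𝔫 C⁻¹` is spanned by rational matrices: the Lie algebra of the monodromy group.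
* The period matrix of `M_b` is `C L` with the transport `L` from `a` to `b` for the connection `d + ∑ N_i ω_i`, which is
  `F(1)` for the solution of `F' = F ∑ c_i N_i` along a path, where `c_i(t) dt` is the pull back of `ω_i` (`IsTransport`).
  The initial value is `1`, or `exp X` with an element `X` of `𝔫` (the regularized transport from a tangential base point to
  the first point of the path). The entries of `L` are the iterated integrals of the forms `ω_i` from `a` to `b`. The
  integrals of length one are the coordinates of the abelian logarithm `u` of the point `[b] - [∞]` of `A`, and integrals `e`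
  of the second kind.

`IsFundamental` is the list of the properties of `M_a` which are used. Quotients and subobjects of these objects, like the
mixed elliptic polylogarithm motives, have the same properties.

**Theorem.** Suppose that the points `[b_r] - [∞]` of the Jacobian `A` are linearly independent over `End A` (for one point
and a simple Jacobian: `[b] - [∞]` is not torsion). Let `T` be a subtorsor over `ℚ̄` which contains the period matrix of
`M_a ⊕ ⨁_r M_{b_r}` and whose group is defined over `ℚ`, for example the de Rham-Betti torsor, the torsor of motivated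
classes or the torsor of formal periods. Then `T` is stable under all matrices `1 ⊕ ⨁_r C exp(n_r) C⁻¹`, `n_r ∈ 𝔫`.

For all these torsors the fibre over the torsor of `M_a` is contained in an orbit of this group, as the path torsors are
torsors under the fundamental group. So the torsors for `M_a ⊕ ⨁_r M_{b_r}` are the full inverse images of the torsors for
`M_a`: as Grothendieck's conjecture predicts, there are no relations over the periods of `M_a` between the iterated
integrals of the forms of the first and second kind from `a` to the points `b_r`, other than the shuffle relations, among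
the relations which define a subtorsor.

## The proof

The Lie algebra of the group of `T` is defined over `ℚ` and contains the logarithmic derivatives `Y ⊕ ⨁_r (Y + V_r)`,
`Y = D(C) C⁻¹`, `V_r ∈ C 𝔫 C⁻¹`, and their rational components. By the theorems of Schneider and Lang for the abelian
variety `A` and the positivity of the Riemann form (`Pool.Agent.Y102`, `Pool.Agent.X306.AV`) there are
* an element with `Y = Z + (higher degree)`, where the commutator with `Z` acts on the Betti form of `H_1(A)` by
  `-(c / 2 + ζ)`, `c ≠ 0`, with an element `ζ` of `End A ⊗ ℚ` which is skew for the Riemann form, so that the eigenvalues of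
  `ζ` are purely imaginary (`Re`), and
* elements with `Y` of degree at least `2` and `V_r = ∑ y_{r j} N'_j + (higher degree)` for arbitrary `y_{r j}`.
The real parts of the eigenvalues of the commutator with `Z` on the matrices of degree `k` are `- k c / 2` (`Eig`). So a
polynomial in the commutator with the first element kills the leading components of `Y` and of the other `V_s`, and is
invertible on the leading component of `V_r` (`Raise`). The result is that `0 ⊕ … ⊕ V_r ⊕ … ⊕ 0` is in the Lie algebra, for
an element `V_r` of `C 𝔫 C⁻¹` with given leading component, and these elements generate `C 𝔫 C⁻¹`.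
-/

set_option autoImplicit false

open Matrix Pool.Agent.Y102

noncomputable section

namespace Pool.Agent.Results.MP_ae0f86_nt.IteratedIntegralsOnCurves

variable {B : Type} [Fintype B] [DecidableEq B]

/-- `T` is a subtorsor over the field of algebraic numbers: it is the set of the invertible zeros of a set of
polynomials with algebraic coefficients, and closed under `x y⁻¹ z`. -/
structure IsTorsor {N : Type} [Fintype N] [DecidableEq N] (T : Set (Matrix N N ℂ)) : Prop where
  algebraic : ∃ I : Set (MvPolynomial (N × N) ℂ), (∀ p ∈ I, ∀ e, IsAlgebraic ℚ (p.coeff e)) ∧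
    ∀ x : Matrix N N ℂ, x ∈ T ↔ IsUnit x ∧ ∀ p ∈ I, MvPolynomial.eval (fun b => x b.1 b.2) p = 0
  closed : ∀ x ∈ T, ∀ y ∈ T, ∀ z ∈ T, x * y⁻¹ * z ∈ T

/-- The group of the matrices `x y⁻¹`, `x, y ∈ T`, is defined by polynomials with rational coefficients. -/
def GroupOverQ {N : Type} [Fintype N] [DecidableEq N] (T : Set (Matrix N N ℂ)) : Prop :=
  ∃ I : Set (MvPolynomial (N × N) ℂ), (∀ p ∈ I, ∀ e, ∃ q : ℚ, p.coeff e = q) ∧
    ∀ h : Matrix N N ℂ, (∃ x ∈ T, ∃ y ∈ T, h = x * y⁻¹) ↔ IsUnit h ∧
      ∀ p ∈ I, MvPolynomial.eval (fun b => h b.1 b.2) p = 0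

/-- The Lie algebra generated by the matrices `N_s`: the smallest subspace which contains them and the commutators of its
elements. -/
def lieAlgebra {S : Type} (N : S → Matrix B B ℂ) : Submodule ℂ (Matrix B B ℂ) :=
  sInf {U | (∀ s, N s ∈ U) ∧ ∀ x ∈ U, ∀ y ∈ U, x * y - y * x ∈ U}

/-- The exponential `∑ X ^ k / k!` for matrices `X` which raise the degree; the terms with `k > max d` vanish for them. -/
def nilExp (d : B → ℕ) (X : Matrix B B ℂ) : Matrix B B ℂ :=
  ∑ k ∈ Finset.range (Finset.univ.sup d + 1), ((k.factorial : ℂ))⁻¹ • X ^ k

variable {g : ℕ}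

/-- The index set `Fin (2 * g)` of the de Rham basis: first the `g` differentials `d z_k` of the first kind, then the `g`
differentials `d (∂_k log θ₀)` of the second kind. -/
def split (g : ℕ) : Fin (2 * g) ≃ Fin g ⊕ Fin g := (finCongr (two_mul g)).trans finSumFinEquiv.symm

/-- The period matrix of `A`: the integrals of the differentials `d z_k` and `d (∂_k log θ₀)` over the cycles `lam i`. -/
def abelianPeriods (A : AbVar g) : Matrix (Fin (2 * g)) (Fin (2 * g)) ℂ :=
  Matrix.of fun i j => Sum.elim (fun k => A.lam i k) (fun k => A.η i k) (split g j)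

/-- The lattice of periods of `A`. -/
def lattice (A : AbVar g) : Submodule ℤ (Fin g → ℂ) := Submodule.span ℤ (Set.range A.lam)

/-- The inverse image in `ℂ^g` of `A(F)`: the vectors `z` such that the point with the homogeneous coordinates `θ_i(z)`
is defined over `F`. -/
def points (A : AbVar g) (F : IntermediateField ℚ ℂ) : Set (Fin g → ℂ) :=
  {z | ∃ i, A.θ i z ≠ 0 ∧ ∀ j, A.θ j z / A.θ i z ∈ F}

/-- `A`, with its embedding and its endomorphisms, is defined over the number field `F`. -/
structure DefinedOver (A : AbVar g) (F : IntermediateField ℚ ℂ) : Prop where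
  numberField : FiniteDimensional ℚ F
  /-- the invariant differentials `d z_k` are defined over `F` -/
  differentials : ∀ k i j, ∃ a : Fin (A.N + 1) → Fin (A.N + 1) → ℂ, (∀ p q, a p q ∈ F) ∧
    ∀ z, A.θ i z * pd k (A.θ j) z - A.θ j z * pd k (A.θ i) z = ∑ p, ∑ q, a p q * (A.θ p z * A.θ q z)
  /-- the sum of two points over `F` is a point over `F` -/
  add : ∀ z ∈ points A F, ∀ w ∈ points A F, z + w ∈ points A F
  /-- the endomorphisms are defined over `F` -/
  endo : ∀ Q : (Fin g → ℂ) →ₗ[ℂ] (Fin g → ℂ), (∀ w ∈ lattice A, Q w ∈ lattice A) → ∀ z ∈ points A F, Q z ∈ points A F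

/-- The properties of the period matrix `C` of the truncated group algebra `M_a` of the fundamental group, of the operation
`N i` of the de Rham basis of `H_1(A)` and of the operation `N' j` of the Betti basis. -/
structure IsFundamental (A : AbVar g) (d : B → ℕ) (o : B) (N N' : Fin (2 * g) → Matrix B B ℂ) (C : Matrix B B ℂ) :
    Prop where
  invertible : IsUnit C
  /-- the weight filtration -/
  lower : ∀ b b', d b' < d b → C b b' = 0
  /-- the extensions between consecutive degrees split (hyperelliptic involution) -/
  one : ∀ b b', d b' = d b + 1 → C b b' = 0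
  /-- the unit `o` is the only element of the basis of degree `0` -/
  unit : d o = 0 ∧ C o o = 1 ∧ ∀ b, d b = 0 → b = o
  /-- `N i` and `N' j` raise the degree by one -/
  deg : ∀ i b b', d b' ≠ d b + 1 → N i b b' = 0 ∧ N' i b b' = 0
  alg : ∀ i b b', IsAlgebraic ℚ (N i b b')
  rat : ∀ i b b', ∃ q : ℚ, N' i b b' = q
  /-- the module is generated by the unit -/
  cyclic : ∀ b, b ≠ o → (Pi.single b 1 : B → ℂ) ∈ Submodule.span ℂ {v | ∃ (w : B → ℂ) (i : Fin (2 * g)), v = w ᵥ* N' i}
  /-- the leading part of `N' j` on the de Rham side is given by the periods of `A` -/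
  periods : ∀ j b b', d b' ≤ d b + 1 → (N' j * C) b b' = ∑ i, abelianPeriods A j i * (C * N i) b b'
  /-- the Betti form of the Lie algebra is defined over `ℚ` -/
  betti : ∀ n ∈ lieAlgebra N, C * n * C⁻¹ ∈ Submodule.span ℂ
    {M : Matrix B B ℂ | (∀ b b', ∃ q : ℚ, M b b' = q) ∧ C⁻¹ * M * C ∈ lieAlgebra N}

/-- `L` is the transport `F(1)` and `l_s` are the integrals `f_s(1)`: `F' = F ∑ c_s N_s` and `f_s' = c_s` on `[0, 1]`; the
initial value is `F(0) = exp X` with an element `X` of the Lie algebra whose component of degree one is `∑ f_s(0) N_s`. -/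
def IsTransport {S : Type} [Fintype S] (d : B → ℕ) (N : S → Matrix B B ℂ) (l : S → ℂ) (L : Matrix B B ℂ) : Prop :=
  ∃ (c f : S → ℝ → ℂ) (F : ℝ → Matrix B B ℂ) (X : Matrix B B ℂ),
    (∀ s, ∀ t ∈ Set.Icc (0 : ℝ) 1, HasDerivWithinAt (f s) (c s t) (Set.Icc 0 1) t) ∧
    (∀ t ∈ Set.Icc (0 : ℝ) 1, ∀ b b',
      HasDerivWithinAt (fun t => F t b b') ((F t * ∑ s, c s t • N s) b b') (Set.Icc 0 1) t) ∧
    X ∈ lieAlgebra N ∧ (∀ b b', d b' ≤ d b + 1 → X b b' = ∑ s, f s 0 * N s b b') ∧ F 0 = nilExp d X ∧
    (∀ s, l s = f s 1) ∧ L = F 1

variable {R : Type} [Fintype R] [DecidableEq R]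

open Pool.Agent.X306.MT Pool.Agent.X306.CV in
/-- **Main theorem.** Let `A` be an abelian variety (the Jacobian of the curve), `C` the period matrix of the truncated
group algebra `M_a`, and `L r` the transport from `a` to the point `b_r`, with the integrals `u r` of the first kind and `e r`
of the second kind. If the points of `A` given by the `u r` are linearly independent over `End A`, every subtorsor over the
algebraic numbers which contains the period matrix `C ⊕ ⨁_r C L_r` and whose group is defined over `ℚ` is stable under the
matrices `1 ⊕ ⨁_r C exp(n_r) C⁻¹`, `n_r ∈ 𝔫`. -/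
theorem result (A : AbVar g) (F : IntermediateField ℚ ℂ) (hF : DefinedOver A F) (d : B → ℕ) (o : B)
    (N N' : Fin (2 * g) → Matrix B B ℂ) (C : Matrix B B ℂ) (hC : IsFundamental A d o N N' C) (u e : R → Fin g → ℂ)
    (L : R → Matrix B B ℂ) (hL : ∀ r, IsTransport d N (fun i => Sum.elim (u r) (e r) (split g i)) (L r))
    (hu : ∀ r, u r ∈ points A F)
    (hind : ∀ Q : R → (Fin g → ℂ) →ₗ[ℂ] (Fin g → ℂ), (∀ r, ∀ w ∈ lattice A, Q r w ∈ lattice A) →
      ∑ r, Q r (u r) ∈ lattice A → ∀ r, Q r = 0)
    (T : Set (Matrix (B ⊕ (B × R)) (B ⊕ (B × R)) ℂ)) (hT : IsTorsor T) (hG : GroupOverQ T)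
    (hP : fromBlocks C 0 0 (blockDiagonal fun r => C * L r) ∈ T) :
    ∀ n : R → Matrix B B ℂ, (∀ r, n r ∈ lieAlgebra N) → ∀ x ∈ T,
      fromBlocks 1 0 0 (blockDiagonal fun r => C * nilExp d (n r) * C⁻¹) * x ∈ T := by
  have hT' : Pool.Agent.TH127.PT.IsSubtorsor Pool.Agent.W245.EB.QB T := by
    obtain ⟨I, h1, h2⟩ := hT.algebraic
    exact ⟨fun x hx => ((h2 x).1 hx).1, hT.closed, I,
      fun p hp e => (Pool.Agent.X306.EM.QB_iff _).1 (h1 p hp e), h2⟩
  have hG' : Pool.Agent.X306.RL.GDef Pool.Agent.X306.EM.QQ T := by
    obtain ⟨I, hI1, hI2⟩ := hG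
    exact ⟨I, fun p hp m => by
      obtain ⟨q, hq⟩ := hI1 p hp m
      exact Pool.Agent.X306.EM.mem_QQ.2 ⟨q, hq.symm⟩, hI2⟩
  have hlam : ∀ i, A.per (A.bas i) = A.lam i := fun i => by
    rw [Pool.Agent.X306.AV.bas_eq, Pool.Agent.X306.AV.lam_per]
  have heta : ∀ i, A.eta (A.bas i) = A.η i := fun i => by
    rw [Pool.Agent.X306.AV.bas_eq]
    unfold AbVar.eta
    rw [Fintype.linearCombination_apply, Finset.sum_eq_single i]
    · rw [Pi.single_eq_same, one_smul]
    · intro k _ hk
      rw [Pi.single_eq_of_ne hk, zero_smul]
    · intro h
      exact absurd (Finset.mem_univ _) h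
  have hPA : abelianPeriods A = Pool.Agent.X306.AV.PA A := by
    ext i j
    change Sum.elim (fun k => A.lam i k) (fun k => A.η i k) (split g j) = A.dR (split g j) (A.bas i)
    rcases split g j with k | k
    · change A.lam i k = A.per (A.bas i) k
      rw [hlam]
    · change A.η i k = A.eta (A.bas i) k
      rw [heta]
  have hlie : lieAlgebra N = nn N := lieGen_eq
  have hexp : ∀ X, nilExp d X = ex d X := fun X => rfl
  have hD1 : Deg1 d N := fun s b b' h => (hC.deg s b b' h).1
  have hD1' : Deg1 d N' := fun s b b' h => (hC.deg s b b' h).2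
  have hbi : Bi d C := Bi.of_low hC.invertible (fun b b' h => hC.lower b b' (by omega))
  have H : Fun d o N N' C (Pool.Agent.X306.AV.PA A) (Pool.Agent.X306.AV.PA A)⁻¹ :=
    { u := hC.invertible
      low := fun b b' h => hC.lower b b' (by omega)
      one := hC.one
      dgo := hC.unit.1
      uni := hC.unit.2.2
      coo := hC.unit.2.1
      hN := hD1
      hNB := hD1'
      alg := hC.alg
      rat := fun i b b' => by
        obtain ⟨q, hq⟩ := hC.rat i b b'
        exact Pool.Agent.X306.EM.mem_QQ.2 ⟨q, hq.symm⟩
      lead := fun j b b' h => by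
        rw [Matrix.sub_apply, hC.periods j b b' (by omega), Matrix.sum_apply, sub_eq_zero, hPA]
        exact Finset.sum_congr rfl fun i _ => rfl
      gen := hC.cyclic
      bet := by
        intro M hM
        have h8 := hC.betti (C⁻¹ * M * C) (hlie ▸ hM)
        rw [nB_conj hbi] at h8
        refine Submodule.span_mono ?_ h8
        rintro M' ⟨h9, h10⟩
        refine ⟨?_, fun b b' => ?_⟩
        · rw [hlie] at h10
          exact h10
        · obtain ⟨q, hq⟩ := h9 b b'
          exact Pool.Agent.X306.EM.mem_QQ.2 ⟨q, hq.symm⟩
      PP := Pool.Agent.X306.AV.inv_PA A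
      PP' := Pool.Agent.X306.AV.PA_inv A }
  have h1 : ∀ r, ∃ ell ∈ nn N, L r = ex d ell ∧ ell - nbv N (ll u e r) ∈ Ge d 2 := by
    intro r
    obtain ⟨c, f, F, X, h5, h6, h7, h8, h9, h10, h11⟩ := hL r
    obtain ⟨ell, h12, h13, h14⟩ := sol_exp (d := d) (N := N) hD1 (F := F) (c := c) (f := f)
      (ℓ₀ := X) (hlie ▸ h7) (by
        intro b b' hb
        rw [Matrix.sub_apply, h8 b b' (by omega), Matrix.sum_apply, sub_eq_zero]
        exact Finset.sum_congr rfl fun s _ => rfl) h5 h6 h9
    refine ⟨ell, h12, by rw [h11, h13], ?_⟩
    refine (congrArg (· ∈ Ge d 2) ?_).mp h14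
    simp only [← h10]
    rfl
  choose ell h2 h3 h4 using h1
  intro n hn x hx
  refine main H hT' hG' h2 h4 ?_ ⟨hF.numberField, hF.differentials, hF.add, hF.endo⟩ hu hind
    (fun r => hlie ▸ hn r) hx
  simp only [← h3]
  exact hP

end Pool.Agent.Results.MP_ae0f86_nt.IteratedIntegralsOnCurves
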