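import Pool.Agent.X306.MT.Main
import Pool.Agent.X306.MT.Clo

/-!
# The de Rham-Betti torsor of the fibres of unipotent variations of mixed Tate motives

Let `X` be a smooth variety over the field `ℚ̄` of algebraic numbers, for example `ℙ¹ ∖ {0, 1, ∞}`, `ℙ¹` without finitely
many points, or the moduli space `M_{0, n}`, and let `M` be a unipotent variation of mixed Tate motives over `X` whose
connection has the form `d + ∑ N_s dlog g_s` in the graded de Rham frame, with units `g_s` of `X`. (So `M` can be the
variation of all multiple polylogarithms of weight at most `n`, or of all iterated integrals of the forms `dz / (z - s)`.)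
Let `a` be a point over `ℚ̄`, or a tangential base point, and let `b` be a point over `ℚ̄`. The motive `M_a ⊕ M_b` has the
following period matrix (rows: Betti side, columns: de Rham side). There are degrees `d : B → ℕ` for the elements `b` of the
basis (of type `ℚ(d b)`), and

* `C` is the period matrix of `M_a`: it is triangular with respect to the degrees, the blocks of the same degree are the
  multiples `(2πi)^d` of the unit matrix, and the entries in the next degree are `(2πi)^d λ_{b b'}` with logarithms
  `λ_{b b'}` of algebraic numbers (`IsMixedTate`). There is no hypothesis for the entries of higher degree.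
* The matrices `N_s` have algebraic entries and degree one. Let `𝔫` be the Lie algebra which they generate
  (`lieAlgebra`). The Betti form `C 𝔫 C⁻¹` is the Lie algebra of the Zariski closure of the monodromy group, so that it is
  spanned by matrices with rational entries; we need that it is spanned by matrices with algebraic entries (`BettiForm`).
* The period matrix of `M_b` is `C L` with the transport `L` from `a` to `b`: the value `F(1)` of the solution of
  `F' = F ∑ N_s g_s'/g_s` along a path (`IsTransport`), with `F(0) = 1`, or, for a tangential base point, with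
  `F(0) = exp X`, `X ∈ 𝔫`, or a limit of such matrices (`IsLimitTransport`). The entries of `L` are the iterated integrals
  of the forms `dlog g_s`; let `l_s` be the corresponding values `∫ dlog g_s` of the logarithms.

**Theorem.** Suppose that the logarithms `l_s` are linearly independent over `ℚ` modulo `2πi` and the `λ_{b b'}` (the
algebraic numbers `exp l_s = g_s(b) / g_s(a)` are multiplicatively independent modulo the ones which belong to the
extensions in `M_a`). Then every subtorsor `T` over `ℚ̄` which contains the period matrix `C ⊕ C L` of `M_a ⊕ M_b` is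
stable under the unipotent group of all `1 ⊕ C exp(n) C⁻¹`, `n ∈ 𝔫`.

The fibres of the motivic torsor of `M_a ⊕ M_b` over the motivic torsor of `M_a` are contained in the orbits of this group
(the path torsors of the motivic fundamental group, Deligne-Goncharov). So for the motivic torsor, the torsor of formal
periods and the de Rham-Betti torsor of `M_a ⊕ M_b` the fibres over the torsor of `M_a` are equal, as Grothendieck's
conjecture predicts: relative to the periods of `M_a` (for example, multiple zeta values) there are no relations between the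
values of the iterated integrals at `b` other than the shuffle relations, among the relations which define a subtorsor.

## The proof

Let `w = 2πi`. The Lie algebra of the group of `T` is defined over `ℚ̄` and contains the logarithmic derivatives
`(Y, Y + V)` of the period matrix, `Y = D(C) C⁻¹`, `V = C (D(L) L⁻¹) C⁻¹ ∈ C 𝔫 C⁻¹`, for the derivations `D` of `ℂ` over
`ℚ̄`, and their components with respect to a basis of `ℂ` over `ℚ̄`. The matrices `Y` normalize `C 𝔫 C⁻¹`. By the theorem
of Baker there is an element with `Y = (degree operator) + (higher degree)` and, for given numbers `τ_s`, an element with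
`Y` of degree at least `2` and `V = ∑ τ_s N_s + (higher degree)`. Commutators with the first one make `Y` vanish: they
multiply the component of degree `k` by `-k`, and `V` by `-1` up to higher degree (`raise`). So the Lie algebra contains
elements `(0, V)` with arbitrary `V = ∑ τ_s N_s + …`, `V ∈ C 𝔫 C⁻¹`, and then all of `0 ⊕ C 𝔫 C⁻¹` (`approx`, `full`).
-/

set_option autoImplicit false

open Matrix

noncomputable section

namespace Pool.Agent.Results.MP_ae0f86_nt.MultiplePolylogarithms

variable {B S : Type} [Fintype B] [DecidableEq B] [Fintype S]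

/-- `T` is a subtorsor over the field of algebraic numbers: it is the set of the invertible zeros of a set of
polynomials with algebraic coefficients, and closed under `x y⁻¹ z`. -/
structure IsTorsor {N : Type} [Fintype N] [DecidableEq N] (T : Set (Matrix N N ℂ)) : Prop where
  algebraic : ∃ I : Set (MvPolynomial (N × N) ℂ), (∀ p ∈ I, ∀ e, IsAlgebraic ℚ (p.coeff e)) ∧
    ∀ x : Matrix N N ℂ, x ∈ T ↔ IsUnit x ∧ ∀ p ∈ I, MvPolynomial.eval (fun b => x b.1 b.2) p = 0
  closed : ∀ x ∈ T, ∀ y ∈ T, ∀ z ∈ T, x * y⁻¹ * z ∈ T

/-- The Lie algebra generated by the matrices `N_s`: the smallest subspace which contains them and the commutators of its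
elements. -/
def lieAlgebra (N : S → Matrix B B ℂ) : Submodule ℂ (Matrix B B ℂ) :=
  sInf {U | (∀ s, N s ∈ U) ∧ ∀ x ∈ U, ∀ y ∈ U, x * y - y * x ∈ U}

/-- The exponential `∑ X ^ k / k!` for matrices `X` which raise the degree; the terms with `k > max d` vanish for them. -/
def nilExp (d : B → ℕ) (X : Matrix B B ℂ) : Matrix B B ℂ :=
  ∑ k ∈ Finset.range (Finset.univ.sup d + 1), ((k.factorial : ℂ))⁻¹ • X ^ k

/-- The shape of the period matrix of a mixed Tate motive over the algebraic numbers, with logarithms `lam b b'` of
algebraic numbers in degree one. -/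
structure IsMixedTate (d : B → ℕ) (lam : B → B → ℂ) (C : Matrix B B ℂ) : Prop where
  lower : ∀ b b', d b' < d b → C b b' = 0
  diag : ∀ b b', d b' = d b → C b b' = if b = b' then (2 * Real.pi * Complex.I) ^ d b else 0
  one : ∀ b b', d b' = d b + 1 → C b b' = (2 * Real.pi * Complex.I) ^ d b * lam b b'
  alg : ∀ b b', IsAlgebraic ℚ (Complex.exp (lam b b'))

/-- The matrices `N_s` have algebraic entries and raise the degree by one, and the Betti form of their Lie algebra is
spanned by matrices with algebraic entries. -/
structure BettiForm (d : B → ℕ) (C : Matrix B B ℂ) (N : S → Matrix B B ℂ) : Prop where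
  alg : ∀ s b b', IsAlgebraic ℚ (N s b b')
  deg : ∀ s b b', d b' ≠ d b + 1 → N s b b' = 0
  betti : ∀ n ∈ lieAlgebra N, C * n * C⁻¹ ∈ Submodule.span ℂ
    {M : Matrix B B ℂ | (∀ b b', IsAlgebraic ℚ (M b b')) ∧ C⁻¹ * M * C ∈ lieAlgebra N}

/-- `L` is the transport `F(1)` and `l_s` are the logarithms `f_s(1)`: `F' = F ∑ N_s g_s' / g_s` and `f_s' = g_s' / g_s` on
`[0, 1]`, with functions `g_s` without zeros; the initial value is `F(0) = exp X` with an element `X` of the Lie algebra
whose component of degree one is `∑ f_s(0) N_s`. -/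
def IsTransport (d : B → ℕ) (N : S → Matrix B B ℂ) (l : S → ℂ) (L : Matrix B B ℂ) : Prop :=
  ∃ (g g' f : S → ℝ → ℂ) (F : ℝ → Matrix B B ℂ) (X : Matrix B B ℂ),
    (∀ s, ∀ t ∈ Set.Icc (0 : ℝ) 1, g s t ≠ 0 ∧ HasDerivWithinAt (g s) (g' s t) (Set.Icc 0 1) t ∧
      HasDerivWithinAt (f s) (g' s t / g s t) (Set.Icc 0 1) t) ∧
    (∀ t ∈ Set.Icc (0 : ℝ) 1, ∀ b b',
      HasDerivWithinAt (fun t => F t b b') ((F t * ∑ s, (g' s t / g s t) • N s) b b') (Set.Icc 0 1) t) ∧
    X ∈ lieAlgebra N ∧ (∀ b b', d b' ≤ d b + 1 → X b b' = ∑ s, f s 0 * N s b b') ∧ F 0 = nilExp d X ∧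
    (∀ s, l s = f s 1) ∧ L = F 1

/-- `L` and `l` are limits of transports (for example, of a constant sequence). -/
def IsLimitTransport (d : B → ℕ) (N : S → Matrix B B ℂ) (l : S → ℂ) (L : Matrix B B ℂ) : Prop :=
  ∃ (lj : ℕ → S → ℂ) (Lj : ℕ → Matrix B B ℂ), (∀ j, IsTransport d N (lj j) (Lj j)) ∧
    (∀ s, Filter.Tendsto (fun j => lj j s) Filter.atTop (nhds (l s))) ∧
    ∀ b b', Filter.Tendsto (fun j => Lj j b b') Filter.atTop (nhds (L b b'))

open Pool.Agent.X306.MT in
/-- **Main theorem.** Let `C` be the period matrix of a mixed Tate motive and `L` the transport for a unipotent variation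
with the logarithms `l_s`. If the `l_s` are linearly independent modulo `2πi` and the logarithms in `C`, then every subtorsor
over the algebraic numbers which contains the period matrix `C ⊕ C L` is stable under the matrices `1 ⊕ C exp(n) C⁻¹`,
`n ∈ 𝔫`. -/
theorem result (d : B → ℕ) (lam : B → B → ℂ) (C : Matrix B B ℂ) (hC : IsMixedTate d lam C) (N : S → Matrix B B ℂ)
    (hN : BettiForm d C N) (l : S → ℂ) (L : Matrix B B ℂ) (hL : IsLimitTransport d N l L)
    (hl : ∀ s, IsAlgebraic ℚ (Complex.exp (l s)))
    (hind : ∀ (k : ℤ) (p : B → B → ℤ) (q : S → ℤ),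
      ∑ b, ∑ b', (p b b' : ℂ) * lam b b' + ∑ s, (q s : ℂ) * l s = k * (2 * Real.pi * Complex.I) → q = 0)
    (T : Set (Matrix (B ⊕ B) (B ⊕ B) ℂ)) (hT : IsTorsor T) (hP : fromBlocks C 0 0 (C * L) ∈ T) :
    ∀ n ∈ lieAlgebra N, ∀ x ∈ T, fromBlocks 1 0 0 (C * nilExp d n * C⁻¹) * x ∈ T := by
  have hT' : Pool.Agent.TH127.PT.IsSubtorsor Pool.Agent.W245.EB.QB T := by
    obtain ⟨I, h1, h2⟩ := hT.algebraic
    exact ⟨fun x hx => ((h2 x).1 hx).1, hT.closed, I,
      fun p hp e => (Pool.Agent.X306.EM.QB_iff _).1 (h1 p hp e), h2⟩
  have hlie : lieAlgebra N = nn N := lieGen_eq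
  have hexp : ∀ X, nilExp d X = ex d X := fun X => rfl
  have hw : (2 * Real.pi * Complex.I : ℂ) ≠ 0 := Complex.two_pi_I_ne_zero
  have hTri : Tri d (2 * Real.pi * Complex.I) C := ⟨hw, hC.lower, hC.diag⟩
  have hD1 : Deg1 d N := fun s b b' h => hN.deg s b b' h
  -- the limit
  obtain ⟨lj, Lj, h1, h2, h3⟩ := hL
  have h4 : ∀ j, ∃ Z ∈ nn N, Lj j = ex d Z ∧ Z - ∑ s, lj j s • N s ∈ Ge d 2 := by
    intro j
    obtain ⟨g, g', f, F, X, h5, h6, h7, h8, h9, h10, h11⟩ := h1 j
    obtain ⟨ell, h12, h13, h14⟩ := sol_exp (d := d) (N := N) hD1 (F := F) (c := fun s t => g' s t / g s t) (f := f)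
      (ℓ₀ := X) (hlie ▸ h7) (by
        intro b b' hb
        rw [Matrix.sub_apply, h8 b b' (by omega), Matrix.sum_apply, sub_eq_zero]
        exact Finset.sum_congr rfl fun s _ => rfl)
      (fun s t ht => (h5 s t ht).2.2) h6 h9
    refine ⟨ell, h12, by rw [h11, h13], ?_⟩
    simp only [h10]
    exact h14
  choose Z hZ1 hZ2 hZ3 using h4
  obtain ⟨ell, h5, h6, h7⟩ := exp_closed (d := d) (N := N) hD1 hZ1 (L := L) (by
    intro b b'
    simp only [← hZ2]
    exact h3 b b') h2 hZ3
  intro n hn x hx
  rw [hexp]
  refine main (lam := fun b => lam b.1 b.2) (l := l) hT' hTri hC.one hN.alg hD1 ?_ h5 h7 (by rw [← h6]; exact hP)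
    (fun b => hC.alg _ _) hl ?_ (hlie ▸ hn) hx
  · intro M hM
    have h8 := hN.betti (C⁻¹ * M * C) (hlie ▸ hM)
    rw [nB_conj hTri] at h8
    refine Submodule.span_mono ?_ h8
    rintro M' ⟨h9, h10⟩
    refine ⟨?_, h9⟩
    rw [hlie] at h10
    exact h10
  · intro k p q h8
    refine hind k (fun b b' => p (b, b')) q ?_
    rw [← h8, Fintype.sum_prod_type]

end Pool.Agent.Results.MP_ae0f86_nt.MultiplePolylogarithms
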