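import Pool.Agent.X306.PL.Main
import Pool.Agent.X306.PL.Cont

/-!
# The de Rham-Betti torsor of polylogarithm motives

Let `a` be an algebraic number, `a ≠ 0, 1`. The `n`-th polylogarithm motive `P_n(a)` is a mixed Tate motive (a Nori motive)
over the field `ℚ̄` of algebraic numbers, a successive extension of `ℚ(0), ℚ(1), …, ℚ(n)`, with the period matrix
(Beilinson, Deligne; rows: Betti side, columns: de Rham side; its transpose is usually given)

    1   -Li₁(a)   -Li₂(a)    …   -Li_n(a)
    0    2πi      2πi log a  …    2πi (log a)^(n-1) / (n-1)!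
    0    0        (2πi)²     …    (2πi)² (log a)^(n-2) / (n-2)!
    …
    0    0        0          …    (2πi)^n

Here `log a` and `Li_k(a)` are the values at `a` of the functions which one gets by analytic continuation from the point
`1/2` along an arbitrary path in `ℂ ∖ {0, 1}` (`IsContinuation`).

Let `a_1, …, a_m` be algebraic numbers such that the elements

  `a_i ∧ (1 - a_i) ∈ Λ² (ℂˣ ⊗ ℚ)`

are linearly independent over `ℚ` (`WedgeIndependent`); for example, for `m = 1` this says that `a` and `1 - a` are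
multiplicatively independent. (A linear relation between these elements is the condition of Bloch, Dupont-Sah and Zagier
under which a combination of the `Li₂(a_i)` comes from an extension of `ℚ(0)` by `ℚ(2)`.) We consider the motive
`M = P_n(a_1) ⊕ … ⊕ P_n(a_m)` and its period matrix `polylogMatrix n (2πi) l y`.

**Theorem.** Every subtorsor `T` over `ℚ̄` (a set of invertible matrices, defined by polynomials with algebraic
coefficients, closed under `x y⁻¹ z`) which contains the period matrix of `M` contains the set `motivicTorsor` of all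
matrices `polylogMatrix n μ x y`, `μ ≠ 0`, for which the numbers `μ`, `x_i`, `y_{i1}` satisfy the `ℤ`-linear relations
between `2πi`, `log a_i`, `-Li₁(a_i) = log (1 - a_i)`. There is no condition for the `y_{ik}`, `k ≥ 2`: the dimension of
`motivicTorsor` is `1 + ρ + m (n - 1)` for `n ≥ 2`, where `ρ` is the rank of the group generated by the `a_i`, `1 - a_i`.

The torsor of formal periods `X(M)`, the torsor of motivic periods and the de Rham-Betti torsor of `M` (also with
coefficients in `ℚ̄` on the Betti side) contain the period matrix, and they are contained in `motivicTorsor` (the conditions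
which define it come from algebraic cycles and morphisms: `P_n(a)` is an extension of `ℚ(0)` by the twisted symmetric power of
a Kummer motive, and relations between Kummer motives). So all these torsors are equal: for the motives `M` the polynomial
relations with algebraic coefficients between the periods which define a subtorsor are exactly the motivic ones, as
Grothendieck's conjecture predicts. For `n = 1` this is the theorem of Baker; for `n ≥ 2` the motives `M` are not
1-motives, and the algebraic independence of `2πi` and the numbers `log a_i`, `Li_k(a_i)`, which the conjecture predicts,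
is unknown in all cases.

## The proof

The Lie algebra `L` of the group of `T` is defined over `ℚ̄` and contains the logarithmic derivatives of the period matrix
for the derivations of `ℂ` over `ℚ̄`. By the theorem of Baker its elements have arbitrary components of degree at most one,
up to the multiplicative relations (`lie_mem`). The commutator of two elements whose components are given by homomorphisms
`v, w : ℂˣ → ℚ` has the component `w(a_i) v(1 - a_i) - v(a_i) w(1 - a_i)` in degree two (the coordinate of `Li₂(a_i)`),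
and nothing in degree one; by hypothesis such vectors span everything (`wedge_span`). Commutators with them give the
coordinates of the `Li_k(a_i)`, `k ≥ 3` (`UU_top`). So `L` contains the Lie algebra of the motivic group; integration along
polynomial paths (`path_mem`) gives the theorem.
-/

set_option autoImplicit false

open Matrix

noncomputable section

namespace Pool.Agent.Results.MP_ae0f86_nt.PolylogarithmMotives

variable {m : ℕ}

/-- The block diagonal matrix with the `m` blocks which have the rows `(1, y_{i1}, …, y_{in})` and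
`(0, …, 0, μ ^ s, μ ^ s x_i, …, μ ^ s x_i ^ (n - s) / (n - s)!)` for `1 ≤ s ≤ n`. The indices are the pairs `(s, i)`. -/
def polylogMatrix (n : ℕ) (μ : ℂ) (x : Fin m → ℂ) (y : Fin m → ℕ → ℂ) :
    Matrix (Fin (n + 1) × Fin m) (Fin (n + 1) × Fin m) ℂ :=
  blockDiagonal fun i => Matrix.of fun s r : Fin (n + 1) =>
    if (s : ℕ) = 0 then (if (r : ℕ) = 0 then 1 else y i r)
    else if (s : ℕ) ≤ r then μ ^ (s : ℕ) * x i ^ ((r : ℕ) - s) / (((r : ℕ) - s).factorial : ℂ) else 0

/-- `l` and `L k`, `k ≥ 1`, are the values of `log` and `Li_k` at `a`, for their analytic continuations along a path `γ`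
from `1/2` to `a` which avoids `0` and `1`: the functions `f 0` and `f k` of `t ∈ [0, 1]` have the initial values
`log (1/2)` and `Li_k(1/2) = ∑ (1/2)^j / j^k` at `t = 0`, and `d (f 0) = dγ / γ`, `d (f 1) = dγ / (1 - γ)`,
`d (f (k + 1)) = f k dγ / γ`. -/
def IsContinuation (a l : ℂ) (L : ℕ → ℂ) : Prop :=
  ∃ (γ γ' : ℝ → ℂ) (f : ℕ → ℝ → ℂ), γ 0 = 1 / 2 ∧ γ 1 = a ∧
    (∀ t ∈ Set.Icc (0 : ℝ) 1, γ t ≠ 0 ∧ γ t ≠ 1 ∧ HasDerivWithinAt γ (γ' t) (Set.Icc 0 1) t) ∧
    f 0 0 = (Real.log (1 / 2) : ℝ) ∧
    (∀ k, 1 ≤ k → f k 0 = ((∑' j : ℕ, (1 / 2 : ℝ) ^ (j + 1) / ((j : ℝ) + 1) ^ k : ℝ) : ℂ)) ∧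
    (∀ t ∈ Set.Icc (0 : ℝ) 1, HasDerivWithinAt (f 0) (γ' t / γ t) (Set.Icc 0 1) t ∧
      HasDerivWithinAt (f 1) (γ' t / (1 - γ t)) (Set.Icc 0 1) t ∧
      ∀ k, 1 ≤ k → HasDerivWithinAt (f (k + 1)) (f k t * (γ' t / γ t)) (Set.Icc 0 1) t) ∧
    l = f 0 1 ∧ ∀ k, 1 ≤ k → L k = f k 1

/-- The elements `a_i ∧ (1 - a_i)` of `Λ² (ℂˣ ⊗ ℚ)` are linearly independent: there is no nontrivial integral relation
`∑ k_i (v ∧ w)(a_i ∧ (1 - a_i)) = 0` which holds for all homomorphisms `v, w : ℂˣ → ℚ`. -/
def WedgeIndependent (a : Fin m → ℂ) : Prop :=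
  ∀ k : Fin m → ℤ, (∀ v w : ℂ → ℚ, (∀ z z' : ℂ, z ≠ 0 → z' ≠ 0 → v (z * z') = v z + v z') →
    (∀ z z' : ℂ, z ≠ 0 → z' ≠ 0 → w (z * z') = w z + w z') →
    ∑ i, (k i : ℚ) * (v (a i) * w (1 - a i) - w (a i) * v (1 - a i)) = 0) → k = 0

/-- The set of all `polylogMatrix n μ x y`, `μ ≠ 0`, such that the numbers `μ`, `x_i`, `y_{i1}` satisfy all linear
relations with integral coefficients between `2πi`, `l_i`, `l'_i`. -/
def motivicTorsor (n : ℕ) (l l' : Fin m → ℂ) : Set (Matrix (Fin (n + 1) × Fin m) (Fin (n + 1) × Fin m) ℂ) :=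
  {M | ∃ (μ : ℂ) (x : Fin m → ℂ) (y : Fin m → ℕ → ℂ), μ ≠ 0 ∧
    (∀ (p q : Fin m → ℤ) (k : ℤ),
      ∑ i, (p i : ℂ) * l i + ∑ i, (q i : ℂ) * l' i = k * (2 * Real.pi * Complex.I) →
      ∑ i, (p i : ℂ) * x i + ∑ i, (q i : ℂ) * y i 1 = k * μ) ∧ M = polylogMatrix n μ x y}

/-- `T` is a subtorsor over the field of algebraic numbers: it is the set of the invertible zeros of a set of
polynomials with algebraic coefficients, and closed under `x y⁻¹ z`. -/
structure IsTorsor {N : Type} [Fintype N] [DecidableEq N] (T : Set (Matrix N N ℂ)) : Prop where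
  algebraic : ∃ I : Set (MvPolynomial (N × N) ℂ), (∀ p ∈ I, ∀ e, IsAlgebraic ℚ (p.coeff e)) ∧
    ∀ x : Matrix N N ℂ, x ∈ T ↔ IsUnit x ∧ ∀ p ∈ I, MvPolynomial.eval (fun b => x b.1 b.2) p = 0
  closed : ∀ x ∈ T, ∀ y ∈ T, ∀ z ∈ T, x * y⁻¹ * z ∈ T

open Pool.Agent.X306.PL in
/-- **Main theorem.** Let `a_1, …, a_m` be algebraic numbers such that the `a_i ∧ (1 - a_i)` are linearly independent and let
`l_i`, `L_{ik}` be simultaneous continuations of `log` and `Li_k` to `a_i`. Then every subtorsor over the algebraic numbers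
which contains the period matrix of the sum of the polylogarithm motives of the `a_i` contains `motivicTorsor`. -/
theorem result (n : ℕ) (a : Fin m → ℂ) (ha : ∀ i, IsAlgebraic ℚ (a i)) (hw : WedgeIndependent a) (l : Fin m → ℂ)
    (L : Fin m → ℕ → ℂ) (hL : ∀ i, IsContinuation (a i) (l i) (L i))
    (T : Set (Matrix (Fin (n + 1) × Fin m) (Fin (n + 1) × Fin m) ℂ)) (hT : IsTorsor T)
    (hc : polylogMatrix n (2 * Real.pi * Complex.I) l (fun i k => -L i k) ∈ T) :
    motivicTorsor n l (fun i => -L i 1) ⊆ T := by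
  have hPM : ∀ (μ : ℂ) (x : Fin m → ℂ) (y : Fin m → ℕ → ℂ), polylogMatrix n μ x y = BP n μ x y := by
    intro μ x y
    unfold polylogMatrix BP
    congr 1
    funext i
    ext s r
    rw [Matrix.of_apply, Matrix.of_apply]
    unfold ent
    split_ifs
    · rfl
    · rfl
    · rw [Rat.smul_def]
      push_cast
      ring
    · rfl
  have hT' : Pool.Agent.TH127.PT.IsSubtorsor Pool.Agent.W245.EB.QB T := by
    obtain ⟨I, h1, h2⟩ := hT.algebraic
    exact ⟨fun x hx => ((h2 x).1 hx).1, hT.closed, I,
      fun p hp e => (Pool.Agent.X306.EM.QB_iff _).1 (h1 p hp e), h2⟩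
  have hl : ∀ i, Complex.exp (l i) = a i := by
    intro i
    obtain ⟨γ, γ', f, h0, h1, h2, h3, h4, h5, h6, h7⟩ := hL i
    rw [h6, ← h1]
    refine exp_log (fun t ht => ⟨(h2 t ht).1, (h2 t ht).2.2⟩) (fun t ht => (h5 t ht).1) ?_
    rw [h3, h0, ← Complex.ofReal_exp, Real.exp_log (by norm_num)]
    push_cast
    ring
  have hl' : ∀ i, Complex.exp (-L i 1) = 1 - a i := by
    intro i
    obtain ⟨γ, γ', f, h0, h1, h2, h3, h4, h5, h6, h7⟩ := hL i
    rw [h7 1 le_rfl, ← h1]
    refine exp_log' (fun t ht => ⟨(h2 t ht).2.1, (h2 t ht).2.2⟩) (fun t ht => (h5 t ht).2.1) ?_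
    rw [h4 1 le_rfl, h0, tsum_one, ← Complex.ofReal_neg, ← Complex.ofReal_exp, Real.exp_neg,
      Real.exp_log (by norm_num)]
    push_cast
    norm_num
  rintro M ⟨μ, x, y, hμ, hR, rfl⟩
  rw [hPM] at hc ⊢
  exact main hT' hc (fun i => rfl) hl hl' ha
    (fun i => (Pool.Agent.X306.EM.QB_iff _).2 (Subfield.sub_mem _ (Subfield.one_mem _)
      ((Pool.Agent.X306.EM.QB_iff _).1 (ha i)))) hw hμ hR

end Pool.Agent.Results.MP_ae0f86_nt.PolylogarithmMotives
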